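import Pool.Agent.Helper624_poly.Slide

/-!
Counting: finiteness of the set of fixed `n`-ominoes, monotonicity of `t`, and the inequality
`√n * t n ^ 2 ≤ t (2 n + 1)`.
-/

namespace Helper624Poly

open Finset

/-! ### Finiteness -/

theorem conn_ivt {A : Finset Cell} (hA : Conn A) (f : Cell → ℤ)
    (hf : ∀ x y, Adj x y → f y ≤ f x + 1) {a b : Cell} (ha : a ∈ A) (hb : b ∈ A) {j : ℤ}
    (h1 : f a ≤ j) (h2 : j ≤ f b) : j ∈ A.image f := by
  by_contra hj
  have hne : ∀ x ∈ A, f x ≠ j := by
    intro x hx hxj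
    exact hj (Finset.mem_image.mpr ⟨x, hx, hxj⟩)
  have key : f b < j := by
    have h := hA a ha b hb
    clear h2 hb
    induction h with
    | refl =>
      have := hne a ha
      omega
    | tail _ h3 ih =>
      have e1 := hf _ _ h3.2.2
      have e2 := hne _ h3.2.1
      omega
  omega

theorem conn_range {A : Finset Cell} (hA : Conn A) (f : Cell → ℤ)
    (hf : ∀ x y, Adj x y → f y ≤ f x + 1) {a b : Cell} (ha : a ∈ A) (hb : b ∈ A) :
    f b - f a ≤ A.card := by
  by_contra hcon
  push Not at hcon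
  have hsub : Finset.Icc (f a) (f b) ⊆ A.image f := by
    intro j hj
    rw [Finset.mem_Icc] at hj
    exact conn_ivt hA f hf ha hb hj.1 hj.2
  have h1 := Finset.card_le_card hsub
  rw [Int.card_Icc] at h1
  have h2 := Finset.card_image_le (s := A) (f := f)
  omega

theorem adj_fst {x y : Cell} (h : Adj x y) : y.1 ≤ x.1 + 1 := by
  rw [adj_iff] at h
  omega

theorem adj_snd {x y : Cell} (h : Adj x y) : y.2 ≤ x.2 + 1 := by
  rw [adj_iff] at h
  omega

theorem conn_box {A : Finset Cell} (hA : Conn A) (h0 : (0 : Cell) ∈ A) :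
    A ⊆ Finset.Icc (-(A.card : ℤ)) A.card ×ˢ Finset.Icc (-(A.card : ℤ)) A.card := by
  intro x hx
  have h1 := conn_range hA Prod.fst (fun _ _ => adj_fst) h0 hx
  have h2 := conn_range hA Prod.fst (fun _ _ => adj_fst) hx h0
  have h3 := conn_range hA Prod.snd (fun _ _ => adj_snd) h0 hx
  have h4 := conn_range hA Prod.snd (fun _ _ => adj_snd) hx h0
  simp only [Prod.fst_zero, Prod.snd_zero] at h1 h2 h3 h4
  rw [Finset.mem_product, Finset.mem_Icc, Finset.mem_Icc]
  omega

/-- The translate of an `n`-omino. -/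
def Omino.tr {n : ℕ} (v : Cell) (A : Omino n) : Omino n :=
  ⟨Helper624Poly.tr v A.1, tr_nonempty v A.2.1, conn_tr v A.2.2.1, by rw [card_tr, A.2.2.2]⟩

instance finite_fixed (n : ℕ) : Finite (Quotient (transSetoid n)) := by
  classical
  have hex : ∀ q : Quotient (transSetoid n), ∃ B : Omino n,
      Quotient.mk (transSetoid n) B = q ∧
        B.1 ∈ (Finset.Icc (-(n : ℤ)) n ×ˢ Finset.Icc (-(n : ℤ)) n).powerset := by
    intro q
    obtain ⟨A, rfl⟩ := Quotient.exists_rep q
    obtain ⟨a, ha⟩ := A.2.1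
    refine ⟨A.tr (-a), ?_, ?_⟩
    · apply Quotient.sound
      exact (transSetoid n).symm ⟨-a, rfl⟩
    · rw [Finset.mem_powerset]
      have h0 : (0 : Cell) ∈ tr (-a) A.1 := by
        rw [mem_tr]
        simpa using ha
      have := conn_box (conn_tr (-a) A.2.2.1) h0
      rw [card_tr, A.2.2.2] at this
      exact this
  choose B hB1 hB2 using hex
  apply Finite.of_injective (β := {S // S ∈
    (Finset.Icc (-(n : ℤ)) n ×ˢ Finset.Icc (-(n : ℤ)) n).powerset}) (fun q => ⟨(B q).1, hB2 q⟩)
  intro q q' hqq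
  have h1 : (B q).1 = (B q').1 := by
    have := congrArg (fun z => z.1) hqq
    exact this
  have h2 : B q = B q' := Subtype.ext h1
  rw [← hB1 q, ← hB1 q', h2]

/-! ### Monotonicity -/

/-- `m` is the top cell of the last column of `A`. -/
def Top (A : Finset Cell) (m : Cell) : Prop :=
  m ∈ A ∧ ∀ p ∈ A, p.1 < m.1 ∨ (p.1 = m.1 ∧ p.2 ≤ m.2)

theorem exists_top {A : Finset Cell} (hA : A.Nonempty) : ∃ m, Top A m := by
  classical
  obtain ⟨x, hx, hxm⟩ := A.exists_max_image Prod.fst hA
  obtain ⟨y, hy, hym⟩ := (A.filter (fun p => p.1 = x.1)).exists_max_image Prod.snd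
    ⟨x, by simp [hx]⟩
  rw [Finset.mem_filter] at hy
  refine ⟨y, hy.1, fun p hp => ?_⟩
  have h1 := hxm p hp
  by_cases h2 : p.1 = x.1
  · have := hym p (by simp [hp, h2])
    exact Or.inr ⟨by rw [h2, hy.2], this⟩
  · left
    rw [hy.2]
    omega

theorem Top.unique {A : Finset Cell} {m m' : Cell} (h : Top A m) (h' : Top A m') : m = m' := by
  have h1 := h.2 m' h'.1
  have h2 := h'.2 m h.1
  ext <;> omega

theorem Top.tr {A : Finset Cell} {m : Cell} (h : Top A m) (v : Cell) :
    Top (tr v A) (m + v) := by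
  refine ⟨add_mem_tr.mpr h.1, fun p hp => ?_⟩
  rw [mem_tr] at hp
  have := h.2 _ hp
  simp only [Prod.fst_sub, Prod.snd_sub, Prod.fst_add, Prod.snd_add] at *
  omega

theorem Top.insert {A : Finset Cell} {m : Cell} (h : Top A m) :
    Top (insert (m + (0, 1)) A) (m + (0, 1)) := by
  refine ⟨Finset.mem_insert_self _ _, fun p hp => ?_⟩
  rw [Finset.mem_insert] at hp
  rcases hp with rfl | hp
  · simp
  · have := h.2 p hp
    simp only [Prod.fst_add, Prod.snd_add]
    omega

theorem Top.notMem {A : Finset Cell} {m : Cell} (h : Top A m) : m + (0, 1) ∉ A := by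
  intro hm
  have := h.2 _ hm
  simp only [Prod.fst_add, Prod.snd_add] at this
  omega

theorem t_mono_succ (n : ℕ) : t n ≤ t (n + 1) := by
  classical
  have hex : ∀ q : Quotient (transSetoid n), ∃ (R : Omino (n + 1)) (m : Cell),
      Top (Quotient.out q).1 m ∧ R.1 = insert (m + (0, 1)) (Quotient.out q).1 := by
    intro q
    obtain ⟨m, hm⟩ := exists_top (Quotient.out q).2.1
    refine ⟨⟨insert (m + (0, 1)) (Quotient.out q).1, Finset.insert_nonempty _ _,
      conn_insert (Quotient.out q).2.2.1 hm.1 (adj_up m), ?_⟩, m, hm, rfl⟩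
    rw [Finset.card_insert_of_notMem hm.notMem, (Quotient.out q).2.2.2]
  choose R m hm hR using hex
  unfold t
  apply Nat.card_le_card_of_injective
    (fun q => Quotient.mk (transSetoid (n + 1)) (R q))
  intro q q' hqq
  obtain ⟨v, hv⟩ : ∃ v, (R q').1 = tr v (R q).1 := Quotient.exact hqq
  have h1 : Top (R q').1 (m q' + (0, 1)) := by
    rw [hR]
    exact (hm q').insert
  have h2 : Top (R q').1 (m q + (0, 1) + v) := by
    rw [hv, hR]
    exact (hm q).insert.tr v
  have h3 := h1.unique h2
  have h4 : (Quotient.out q').1 = tr v (Quotient.out q).1 := by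
    have e1 : (R q').1.erase (m q' + (0, 1)) = (Quotient.out q').1 := by
      rw [hR]
      exact Finset.erase_insert (hm q').notMem
    have e2 : (R q').1.erase (m q + (0, 1) + v) = tr v (Quotient.out q).1 := by
      rw [hv, hR]
      unfold Helper624Poly.tr
      rw [Finset.image_insert]
      apply Finset.erase_insert
      intro hmem
      have : m q + (0, 1) + v ∈ tr v (Quotient.out q).1 := hmem
      rw [add_mem_tr] at this
      exact (hm q).notMem this
    rw [← e1, ← e2, h3]
  have h5 : Quotient.mk (transSetoid n) (Quotient.out q) =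
      Quotient.mk (transSetoid n) (Quotient.out q') := Quotient.sound ⟨v, h4⟩
  rwa [Quotient.out_eq, Quotient.out_eq] at h5

theorem t_mono : Monotone t := monotone_nat_of_le_succ t_mono_succ

theorem t_one_pos : 0 < t 1 := by
  unfold t
  have : Nonempty (Quotient (transSetoid 1)) := by
    refine ⟨Quotient.mk _ ⟨{0}, Finset.singleton_nonempty _, ?_, rfl⟩⟩
    intro a ha b hb
    rw [Finset.mem_singleton] at ha hb
    subst ha
    subst hb
    exact Relation.ReflTransGen.refl
  exact Nat.card_pos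

/-! ### Transposition -/

/-- Reflection in the diagonal. -/
def tp (A : Finset Cell) : Finset Cell := A.image Prod.swap

theorem mem_tp {A : Finset Cell} {x : Cell} : x ∈ tp A ↔ x.swap ∈ A := by
  unfold tp
  rw [Finset.mem_image]
  constructor
  · rintro ⟨a, ha, rfl⟩
    simpa using ha
  · intro h
    exact ⟨x.swap, h, by simp⟩

theorem tp_tp (A : Finset Cell) : tp (tp A) = A := by
  ext x
  rw [mem_tp, mem_tp, Prod.swap_swap]

theorem adj_swap {a b : Cell} : Adj a.swap b.swap ↔ Adj a b := by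
  rw [adj_iff, adj_iff]
  simp only [Prod.fst_swap, Prod.snd_swap]
  tauto

theorem conn_tp {A : Finset Cell} (hA : Conn A) : Conn (tp A) := by
  intro x hx y hy
  have h := hA x.swap (mem_tp.mp hx) y.swap (mem_tp.mp hy)
  have key : ∀ p q : Cell, Relation.ReflTransGen (fun x y => x ∈ A ∧ y ∈ A ∧ Adj x y) p q →
      Relation.ReflTransGen (fun x y => x ∈ tp A ∧ y ∈ tp A ∧ Adj x y) p.swap q.swap := by
    intro p q hpq
    induction hpq with
    | refl => exact Relation.ReflTransGen.refl
    | tail _ h3 ih =>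
      refine ih.tail ⟨?_, ?_, adj_swap.mpr h3.2.2⟩
      · rw [mem_tp, Prod.swap_swap]
        exact h3.1
      · rw [mem_tp, Prod.swap_swap]
        exact h3.2.1
  have := key _ _ h
  rwa [Prod.swap_swap, Prod.swap_swap] at this

theorem tp_tr (v : Cell) (A : Finset Cell) : tp (tr v A) = tr v.swap (tp A) := by
  ext x
  rw [mem_tp, mem_tr, mem_tr, mem_tp]
  rfl

/-- The reflected `n`-omino. -/
def Omino.tp {n : ℕ} (A : Omino n) : Omino n :=
  ⟨Helper624Poly.tp A.1, A.2.1.image _, conn_tp A.2.2.1, by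
    unfold Helper624Poly.tp
    rw [Finset.card_image_of_injective _ Prod.swap_injective, A.2.2.2]⟩

theorem Omino.tp_tp {n : ℕ} (A : Omino n) : A.tp.tp = A := Subtype.ext (Helper624Poly.tp_tp A.1)

/-- Reflection on fixed `n`-ominoes. -/
def tpEquiv (n : ℕ) : Quotient (transSetoid n) ≃ Quotient (transSetoid n) where
  toFun := Quotient.map Omino.tp (by
    rintro A B ⟨v, hv⟩
    refine ⟨v.swap, ?_⟩
    show tp B.1 = tr v.swap (tp A.1)
    rw [hv, tp_tr])
  invFun := Quotient.map Omino.tp (by
    rintro A B ⟨v, hv⟩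
    refine ⟨v.swap, ?_⟩
    show tp B.1 = tr v.swap (tp A.1)
    rw [hv, tp_tr])
  left_inv := by
    intro q
    obtain ⟨A, rfl⟩ := Quotient.exists_rep q
    simp only [Quotient.map_mk, Omino.tp_tp]
  right_inv := by
    intro q
    obtain ⟨A, rfl⟩ := Quotient.exists_rep q
    simp only [Quotient.map_mk, Omino.tp_tp]

/-- The number of columns of a set of cells. -/
def cols (A : Finset Cell) : ℕ := (A.image Prod.fst).card

/-- The number of rows of a set of cells. -/
def rows (A : Finset Cell) : ℕ := (A.image Prod.snd).card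

theorem cols_tr (v : Cell) (A : Finset Cell) : cols (tr v A) = cols A := by
  unfold cols tr
  rw [Finset.image_image]
  have : (Prod.fst ∘ fun c : Cell => c + v) = (fun z : ℤ => z + v.1) ∘ Prod.fst := by
    funext c
    simp
  rw [this, ← Finset.image_image]
  exact Finset.card_image_of_injective _ (add_left_injective v.1)

theorem cols_tp (A : Finset Cell) : cols (tp A) = rows A := by
  unfold cols rows tp
  rw [Finset.image_image]
  rfl

theorem card_le_cols_mul_rows (A : Finset Cell) : A.card ≤ cols A * rows A := by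
  unfold cols rows
  rw [← Finset.card_product]
  apply Finset.card_le_card
  intro x hx
  rw [Finset.mem_product]
  exact ⟨Finset.mem_image_of_mem _ hx, Finset.mem_image_of_mem _ hx⟩

theorem two_sqrt_le {n c r : ℕ} (h : n ≤ c * r) : 2 * √(n : ℝ) ≤ c + r := by
  have h1 : (n : ℝ) ≤ c * r := by exact_mod_cast h
  have h2 := Real.sq_sqrt (Nat.cast_nonneg (α := ℝ) n)
  have h3 := Real.sqrt_nonneg (n : ℝ)
  have h4 : (0 : ℝ) ≤ c := Nat.cast_nonneg _
  have h5 : (0 : ℝ) ≤ r := Nat.cast_nonneg _
  by_contra hcon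
  push Not at hcon
  nlinarith [sq_nonneg ((c : ℝ) - r)]

theorem eq_tr_of_tr_eq {A B : Finset Cell} {v w : Cell} (h : tr v A = tr w B) :
    A = tr (w + -v) B := by
  rw [← tr_tr, ← h, tr_tr, add_neg_cancel, tr_zero]

/-! ### The injection -/

theorem exists_glue {n : ℕ} (P Q : Omino n) (x : {x : ℤ // x ∈ P.1.image Prod.fst}) :
    ∃ (R : Omino (2 * n + 1)) (c : Cell) (v : ℤ),
      Good n R.1 P.1 c (tr (x.1 - Q.2.1.choose.1, v) Q.1) := by
  classical
  obtain ⟨a, ha, hax⟩ := Finset.mem_image.mp x.2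
  have hb := Q.2.1.choose_spec
  obtain ⟨v, c, hsep, hcP, hcQ, ⟨a', ha', hadj⟩, hup⟩ :=
    exists_slide P.1 Q.1 (x.1 - Q.2.1.choose.1) ⟨a, ha, _, hb, by omega⟩
  have hconnQ : Conn (tr (x.1 - Q.2.1.choose.1, v) Q.1) := conn_tr _ Q.2.2.1
  have hcPQ : c ∉ P.1 ∪ tr (x.1 - Q.2.1.choose.1, v) Q.1 := by
    rw [Finset.mem_union]
    rintro (h | h)
    · exact hcP h
    · exact hcQ h
  have hdis : Disjoint P.1 (tr (x.1 - Q.2.1.choose.1, v) Q.1) := by
    rw [Finset.disjoint_left]
    intro y hy hy'
    exact (hsep y hy y hy').1 rfl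
  have hconn : Conn (insert c (P.1 ∪ tr (x.1 - Q.2.1.choose.1, v) Q.1)) := by
    have e : insert c (P.1 ∪ tr (x.1 - Q.2.1.choose.1, v) Q.1)
        = insert c P.1 ∪ insert c (tr (x.1 - Q.2.1.choose.1, v) Q.1) := by
      ext y
      simp only [Finset.mem_union, Finset.mem_insert]
      tauto
    rw [e]
    exact conn_union (conn_insert P.2.2.1 ha' hadj)
      (conn_insert hconnQ hup (adj_comm.mp (adj_up c)))
      (Finset.mem_insert_self _ _) (Finset.mem_insert_self _ _)
  refine ⟨⟨insert c (P.1 ∪ tr (x.1 - Q.2.1.choose.1, v) Q.1), Finset.insert_nonempty _ _,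
    hconn, ?_⟩, c, v, ?_⟩
  · rw [Finset.card_insert_of_notMem hcPQ, Finset.card_union_of_disjoint hdis, card_tr,
      P.2.2.2, Q.2.2.2]
    ring
  · exact ⟨rfl, hsep, hcP, hcQ, P.2.2.1, hconnQ, P.2.2.2, by rw [card_tr, Q.2.2.2],
      ⟨a', ha', hadj⟩, hup⟩

theorem glue_le (n : ℕ) : (∑ᶠ q : Quotient (transSetoid n), cols (Quotient.out q).1) * t n
    ≤ t (2 * n + 1) := by
  classical
  let _ : Fintype (Quotient (transSetoid n)) := Fintype.ofFinite _
  choose R c v hG using
    fun (P Q : Omino n) (x : {x : ℤ // x ∈ P.1.image Prod.fst}) => exists_glue P Q x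
  let X := (Σ q : Quotient (transSetoid n), {x : ℤ // x ∈ (Quotient.out q).1.image Prod.fst}) ×
    Quotient (transSetoid n)
  let Φ : X → Quotient (transSetoid (2 * n + 1)) := fun z =>
    Quotient.mk _ (R (Quotient.out z.1.1) (Quotient.out z.2) z.1.2)
  have hinj : Function.Injective Φ := by
    rintro ⟨⟨q1, x1⟩, q1'⟩ ⟨⟨q2, x2⟩, q2'⟩ h
    obtain ⟨τ, hτ⟩ : ∃ τ, (R (Quotient.out q2) (Quotient.out q2') x2).1 =
        tr τ (R (Quotient.out q1) (Quotient.out q1') x1).1 := Quotient.exact h
    have g1 := (hG (Quotient.out q1) (Quotient.out q1') x1).tr τ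
    have g2 := hG (Quotient.out q2) (Quotient.out q2') x2
    rw [hτ] at g2
    obtain ⟨hA, hB, -⟩ := g2.unique g1
    have hq : q1 = q2 := by
      have : Quotient.mk (transSetoid n) (Quotient.out q1) =
        Quotient.mk (transSetoid n) (Quotient.out q2) := Quotient.sound ⟨τ, hA⟩
      rwa [Quotient.out_eq, Quotient.out_eq] at this
    subst hq
    have hτ0 : τ = 0 := tr_eq_self (Quotient.out q1).2.1 hA.symm
    subst hτ0
    rw [tr_zero] at hB
    have hq' : q1' = q2' := by
      have : Quotient.mk (transSetoid n) (Quotient.out q1') =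
        Quotient.mk (transSetoid n) (Quotient.out q2') := by
        apply Quotient.sound
        exact ⟨_, eq_tr_of_tr_eq hB⟩
      rwa [Quotient.out_eq, Quotient.out_eq] at this
    subst hq'
    have hvec := tr_inj (Quotient.out q1').2.1 hB
    have hx : x1.1 = x2.1 := by
      have := congrArg Prod.fst hvec
      simp only at this
      omega
    have hx' : x1 = x2 := Subtype.ext hx
    rw [hx']
  have hcard := Nat.card_le_card_of_injective Φ hinj
  have e1 : Nat.card X = (∑ᶠ q : Quotient (transSetoid n), cols (Quotient.out q).1) * t n := by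
    show Nat.card ((Σ q : Quotient (transSetoid n),
      {x : ℤ // x ∈ (Quotient.out q).1.image Prod.fst}) × Quotient (transSetoid n)) = _
    rw [Nat.card_prod, Nat.card_sigma, finsum_eq_sum_of_fintype]
    congr 1
    apply Finset.sum_congr rfl
    intro q _
    rw [Nat.card_eq_fintype_card, Fintype.card_coe]
    rfl
  rw [e1] at hcard
  exact hcard

theorem sqrt_mul_sq_le (n : ℕ) : √(n : ℝ) * (t n : ℝ) ^ 2 ≤ t (2 * n + 1) := by
  classical
  let _ : Fintype (Quotient (transSetoid n)) := Fintype.ofFinite _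
  have h1 := glue_le n
  rw [finsum_eq_sum_of_fintype] at h1
  have hsymm : ∑ q : Quotient (transSetoid n), cols (Quotient.out q).1
      = ∑ q : Quotient (transSetoid n), rows (Quotient.out q).1 := by
    rw [← Equiv.sum_comp (tpEquiv n)]
    apply Finset.sum_congr rfl
    intro q _
    have e1 : Quotient.mk (transSetoid n) (Quotient.out (tpEquiv n q)) =
        Quotient.mk (transSetoid n) (Quotient.out q).tp := by
      rw [Quotient.out_eq]
      conv_lhs => rw [← Quotient.out_eq q]
      rfl
    obtain ⟨w, hw⟩ : ∃ w, (Quotient.out q).tp.1 = tr w (Quotient.out (tpEquiv n q)).1 :=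
      Quotient.exact e1
    have e2 : cols (Quotient.out q).tp.1 = cols (Quotient.out (tpEquiv n q)).1 := by
      rw [hw, cols_tr]
    rw [← e2]
    exact cols_tp _
  have hcard : (t n : ℝ) = ∑ _q : Quotient (transSetoid n), (1 : ℝ) := by
    rw [Finset.sum_const, Finset.card_univ, nsmul_eq_mul, mul_one]
    unfold t
    rw [Nat.card_eq_fintype_card]
  have h2 : √(n : ℝ) * t n ≤ ((∑ q : Quotient (transSetoid n), cols (Quotient.out q).1 : ℕ) : ℝ) := by
    have h3 : 2 * (√(n : ℝ) * t n) ≤
        ((∑ q : Quotient (transSetoid n), cols (Quotient.out q).1 : ℕ) : ℝ) +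
        ((∑ q : Quotient (transSetoid n), rows (Quotient.out q).1 : ℕ) : ℝ) := by
      rw [hcard]
      push_cast
      rw [← Finset.sum_add_distrib, Finset.mul_sum, Finset.mul_sum]
      apply Finset.sum_le_sum
      intro q _
      have := card_le_cols_mul_rows (Quotient.out q).1
      rw [(Quotient.out q).2.2.2] at this
      have := two_sqrt_le this
      linarith
    rw [← hsymm] at h3
    linarith
  have h4 : ((∑ q : Quotient (transSetoid n), cols (Quotient.out q).1 : ℕ) : ℝ) * t n
      ≤ t (2 * n + 1) := by exact_mod_cast h1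
  calc √(n : ℝ) * (t n : ℝ) ^ 2 = (√(n : ℝ) * t n) * t n := by ring
    _ ≤ ((∑ q : Quotient (transSetoid n), cols (Quotient.out q).1 : ℕ) : ℝ) * t n :=
        mul_le_mul_of_nonneg_right h2 (Nat.cast_nonneg _)
    _ ≤ _ := h4

end Helper624Poly
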