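import Mathlib

/-!
Fixed polyominoes and their generating function.
-/

namespace Helper624Poly

/-- The cell `[a, a+1] × [b, b+1]` of the square lattice is recorded as the pair `(a, b)`. -/
abbrev Cell : Type := ℤ × ℤ

/-- Two cells are adjacent when they share an edge. -/
def Adj (a b : Cell) : Prop := |a.1 - b.1| + |a.2 - b.2| = 1

/-- A finite set of cells is connected when any two of its cells are joined by a chain of cells
of the set in which consecutive cells share an edge. -/
def Conn (A : Finset Cell) : Prop :=
  ∀ a ∈ A, ∀ b ∈ A, Relation.ReflTransGen (fun x y => x ∈ A ∧ y ∈ A ∧ Adj x y) a b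

/-- An `n`-omino is a nonempty connected set of `n` cells. -/
def Omino (n : ℕ) : Type := {A : Finset Cell // A.Nonempty ∧ Conn A ∧ A.card = n}

/-- The translate of a finite set of cells by the vector `v`. -/
def tr (v : Cell) (A : Finset Cell) : Finset Cell := A.image (fun c => c + v)

theorem tr_zero (A : Finset Cell) : tr 0 A = A := by
  unfold tr
  simp

theorem tr_tr (v w : Cell) (A : Finset Cell) : tr w (tr v A) = tr (v + w) A := by
  unfold tr
  rw [Finset.image_image]
  congr 1
  funext c
  simp [add_assoc]

/-- Two `n`-ominoes are identified when one is a translate of the other. -/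
def transSetoid (n : ℕ) : Setoid (Omino n) where
  r A B := ∃ v : Cell, B.1 = tr v A.1
  iseqv :=
    { refl := fun A => ⟨0, (tr_zero A.1).symm⟩
      symm := by
        rintro A B ⟨v, hv⟩
        exact ⟨-v, by rw [hv, tr_tr, add_neg_cancel, tr_zero]⟩
      trans := by
        rintro A B C ⟨v, hv⟩ ⟨w, hw⟩
        exact ⟨v + w, by rw [hw, hv, tr_tr]⟩ }

/-- `t n` is the number of fixed `n`-ominoes, that is, of `n`-ominoes up to translation. -/
noncomputable def t (n : ℕ) : ℕ := Nat.card (Quotient (transSetoid n))

end Helper624Poly
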