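import Mathlib

/-!
Rational power series: a growth obstruction.  If the power series with coefficients `s n`
(nonnegative and monotone) is rational then its Hankel matrix has finite rank, hence
`s (m + n) ≤ C * s (m + K) * s (n + K)`, and `s (n + 1) ≤ B * s n` for large `n`.
-/

namespace Helper624Poly

open Finset

theorem exists_recurrence (s : ℕ → ℂ) (P Q : Polynomial ℂ) (hQ : Q ≠ 0)
    (h : (Q : PowerSeries ℂ) * PowerSeries.mk s = (P : PowerSeries ℂ)) :
    ∃ (d M : ℕ) (c : ℕ → ℂ), d ≤ M ∧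
      ∀ n, M ≤ n → s n = ∑ i ∈ range d, c i * s (n - 1 - i) := by
  classical
  set i0 := Q.natTrailingDegree with hi0
  have hq0 : Q.coeff i0 ≠ 0 := by
    have := Polynomial.trailingCoeff_nonzero_iff_nonzero.mpr hQ
    simpa [Polynomial.trailingCoeff, hi0] using this
  refine ⟨Q.natDegree, Q.natDegree + P.natDegree + 1,
    fun i => -(Q.coeff (i0 + (i + 1)) / Q.coeff i0), by omega, ?_⟩
  intro n hn
  have hc := congrArg (PowerSeries.coeff (n + i0)) h
  rw [PowerSeries.coeff_mul, Polynomial.coeff_coe,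
    Polynomial.coeff_eq_zero_of_natDegree_lt (by omega : P.natDegree < n + i0)] at hc
  rw [Finset.Nat.sum_antidiagonal_eq_sum_range_succ_mk] at hc
  simp only [Polynomial.coeff_coe, PowerSeries.coeff_mk] at hc
  have e1 : (n + i0).succ = i0 + (n + 1) := by omega
  rw [e1, Finset.sum_range_add] at hc
  have z1 : ∑ x ∈ range i0, Q.coeff x * s (n + i0 - x) = 0 := by
    apply Finset.sum_eq_zero
    intro x hx
    rw [Polynomial.coeff_eq_zero_of_lt_natTrailingDegree (Finset.mem_range.mp hx), zero_mul]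
  rw [z1, zero_add, Finset.sum_range_succ'] at hc
  have e2 : ∑ x ∈ range n, Q.coeff (i0 + (x + 1)) * s (n + i0 - (i0 + (x + 1)))
      = ∑ x ∈ range Q.natDegree, Q.coeff (i0 + (x + 1)) * s (n - 1 - x) := by
    have hsub : range Q.natDegree ⊆ range n := by
      intro x hx
      rw [Finset.mem_range] at *
      omega
    rw [← Finset.sum_subset hsub]
    · apply Finset.sum_congr rfl
      intro x hx
      congr 2
      omega
    · intro x hx hx'
      rw [Polynomial.coeff_eq_zero_of_natDegree_lt, zero_mul]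
      rw [Finset.mem_range] at *
      omega
  rw [e2] at hc
  have e3 : n + i0 - (i0 + 0) = n := by omega
  rw [e3, add_zero] at hc
  have : s n = -(∑ x ∈ range Q.natDegree, Q.coeff (i0 + (x + 1)) * s (n - 1 - x)) / Q.coeff i0 := by
    field_simp
    linear_combination hc
  rw [this, neg_div, Finset.sum_div, ← Finset.sum_neg_distrib]
  apply Finset.sum_congr rfl
  intro x hx
  ring

/-- elements of the span of the shifts are bounded by a shift of `s` -/
theorem span_bound (s : ℕ → ℝ) (hmono : Monotone s) (hnn : ∀ n, 0 ≤ s n)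
    (w : ℕ → ℂ)
    (hw : w ∈ Submodule.span ℂ (Set.range (fun (k : ℕ) (n : ℕ) => (s (n + k) : ℂ)))) :
    ∃ (B : ℝ) (K : ℕ), 0 ≤ B ∧ ∀ m, ‖w m‖ ≤ B * s (m + K) := by
  induction hw using Submodule.span_induction with
  | mem x hx =>
    obtain ⟨k, rfl⟩ := hx
    refine ⟨1, k, zero_le_one, fun m => ?_⟩
    simp [abs_of_nonneg (hnn (m + k))]
  | zero => exact ⟨0, 0, le_refl _, fun m => by simp⟩
  | add x y hx hy ihx ihy =>
    obtain ⟨B1, K1, h1, h1'⟩ := ihx
    obtain ⟨B2, K2, h2, h2'⟩ := ihy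
    refine ⟨B1 + B2, K1 + K2, by positivity, fun m => ?_⟩
    have a1 : s (m + K1) ≤ s (m + (K1 + K2)) := hmono (by omega)
    have a2 : s (m + K2) ≤ s (m + (K1 + K2)) := hmono (by omega)
    calc ‖(x + y) m‖ ≤ ‖x m‖ + ‖y m‖ := norm_add_le _ _
      _ ≤ B1 * s (m + K1) + B2 * s (m + K2) := add_le_add (h1' m) (h2' m)
      _ ≤ B1 * s (m + (K1 + K2)) + B2 * s (m + (K1 + K2)) :=
          add_le_add (mul_le_mul_of_nonneg_left a1 h1) (mul_le_mul_of_nonneg_left a2 h2)
      _ = (B1 + B2) * s (m + (K1 + K2)) := by ring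
  | smul a x hx ih =>
    obtain ⟨B, K, h1, h1'⟩ := ih
    refine ⟨‖a‖ * B, K, by positivity, fun m => ?_⟩
    calc ‖(a • x) m‖ = ‖a‖ * ‖x m‖ := by simp
      _ ≤ ‖a‖ * (B * s (m + K)) := mul_le_mul_of_nonneg_left (h1' m) (norm_nonneg _)
      _ = ‖a‖ * B * s (m + K) := by ring

theorem hankel_bound (s : ℕ → ℝ) (hmono : Monotone s) (hnn : ∀ n, 0 ≤ s n)
    (d M : ℕ) (c : ℕ → ℂ) (hd : d ≤ M)
    (hrec : ∀ n, M ≤ n → (s n : ℂ) = ∑ i ∈ range d, c i * (s (n - 1 - i) : ℂ)) :
    ∃ (C : ℝ) (K : ℕ), 0 ≤ C ∧ ∀ m n, s (m + n) ≤ C * s (m + K) * s (n + K) := by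
  classical
  set f : ℕ → (ℕ → ℂ) := fun (k : ℕ) (n : ℕ) => (s (n + k) : ℂ) with hf
  set W : Submodule ℂ (ℕ → ℂ) := Submodule.span ℂ (Set.range f) with hW
  -- finite dimension
  have hgen : ∀ k, f k ∈ Submodule.span ℂ (f '' (Set.Iio M)) := by
    intro k
    induction k using Nat.strong_induction_on with
    | _ k ih =>
      by_cases hk : k < M
      · exact Submodule.subset_span ⟨k, hk, rfl⟩
      · have e : f k = ∑ i ∈ range d, c i • f (k - 1 - i) := by
          funext n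
          rw [Finset.sum_apply]
          simp only [hf, Pi.smul_apply, smul_eq_mul]
          rw [hrec (n + k) (by omega)]
          apply Finset.sum_congr rfl
          intro i hi
          rw [Finset.mem_range] at hi
          have : n + k - 1 - i = n + (k - 1 - i) := by omega
          rw [this]
        rw [e]
        apply Submodule.sum_mem
        intro i hi
        rw [Finset.mem_range] at hi
        exact Submodule.smul_mem _ _ (ih _ (by omega))
  have hWeq : W = Submodule.span ℂ (f '' (Set.Iio M)) := by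
    apply le_antisymm
    · rw [hW, Submodule.span_le]
      rintro _ ⟨k, rfl⟩
      exact hgen k
    · apply Submodule.span_mono
      exact Set.image_subset_range _ _
  have hfin : FiniteDimensional ℂ W := by
    rw [hWeq]
    exact FiniteDimensional.span_of_finite ℂ ((Set.finite_Iio M).image f)
  -- restriction maps
  let r : (N : ℕ) → W →ₗ[ℂ] (Fin N → ℂ) := fun N =>
    (LinearMap.funLeft ℂ ℂ (fun i : Fin N => (i : ℕ))).comp W.subtype
  have hr : ∀ N (w : W) (i : Fin N), r N w i = (w : ℕ → ℂ) i := fun N w i => rfl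
  let Ks : ℕ →o (Submodule ℂ W)ᵒᵈ :=
    { toFun := fun N => OrderDual.toDual (LinearMap.ker (r N))
      monotone' := by
        intro a b hab
        rw [OrderDual.toDual_le_toDual]
        intro w hw
        rw [LinearMap.mem_ker] at *
        funext i
        have := congrFun hw ⟨i, lt_of_lt_of_le i.2 hab⟩
        rw [hr] at *
        exact this }
  obtain ⟨N, hN⟩ := IsArtinian.monotone_stabilizes Ks
  have hker : LinearMap.ker (r N) = ⊥ := by
    rw [eq_bot_iff]
    intro w hw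
    rw [Submodule.mem_bot]
    ext m
    have h1 : Ks N = Ks (max N (m + 1)) := hN _ (le_max_left _ _)
    have h2 : LinearMap.ker (r N) = LinearMap.ker (r (max N (m + 1))) := by
      have := congrArg OrderDual.ofDual h1
      exact this
    rw [h2, LinearMap.mem_ker] at hw
    have := congrFun hw ⟨m, lt_of_lt_of_le (Nat.lt_succ_self m) (le_max_right _ _)⟩
    rw [hr] at this
    exact this
  obtain ⟨g, hg⟩ := LinearMap.exists_leftInverse_of_injective (r N) hker
  have hrep : ∀ (w : W) (m : ℕ), (w : ℕ → ℂ) m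
      = ∑ x : Fin N, (w : ℕ → ℂ) x * ((g (Pi.single x 1) : W) : ℕ → ℂ) m := by
    intro w m
    have h1 : g (r N w) = w := by
      have := LinearMap.congr_fun hg w
      exact this
    have h2 : r N w = ∑ x : Fin N, (w : ℕ → ℂ) x • (Pi.single x (1 : ℂ) : Fin N → ℂ) := by
      funext i
      rw [Finset.sum_apply]
      simp only [Pi.smul_apply, smul_eq_mul, Pi.single_apply, mul_ite, mul_one, mul_zero]
      rw [Finset.sum_ite_eq]
      simp [hr]
    have h3 : w = ∑ x : Fin N, (w : ℕ → ℂ) x • g (Pi.single x (1 : ℂ)) := by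
      conv_lhs => rw [← h1, h2, map_sum]
      simp only [map_smul]
    have h4 := congrArg (fun v : W => (v : ℕ → ℂ) m) h3
    rw [h4]
    simp [Finset.sum_apply]
  have hb : ∀ x : Fin N, ∃ (B : ℝ) (K : ℕ), 0 ≤ B ∧
      ∀ m, ‖((g (Pi.single x 1) : W) : ℕ → ℂ) m‖ ≤ B * s (m + K) := by
    intro x
    exact span_bound s hmono hnn _ (g (Pi.single x 1)).2
  choose B K hB hBK using hb
  refine ⟨∑ x, B x, N + ∑ x, K x, Finset.sum_nonneg (fun x _ => hB x), ?_⟩
  intro m n
  have hfn : f n ∈ W := Submodule.subset_span ⟨n, rfl⟩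
  have h1 := hrep ⟨f n, hfn⟩ m
  simp only [hf] at h1
  have h2 : s (m + n) = ‖(s (m + n) : ℂ)‖ := by
    rw [Complex.norm_real, Real.norm_of_nonneg (hnn _)]
  rw [h2, h1]
  calc ‖∑ x : Fin N, (s ((x : ℕ) + n) : ℂ) * ((g (Pi.single x 1) : W) : ℕ → ℂ) m‖
      ≤ ∑ x : Fin N, ‖(s ((x : ℕ) + n) : ℂ) * ((g (Pi.single x 1) : W) : ℕ → ℂ) m‖ :=
        norm_sum_le _ _
    _ ≤ ∑ x : Fin N, B x * s (m + (N + ∑ x, K x)) * s (n + (N + ∑ x, K x)) := by
        apply Finset.sum_le_sum
        intro x _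
        rw [norm_mul, Complex.norm_real, Real.norm_of_nonneg (hnn _)]
        have hKx : K x ≤ ∑ x, K x := Finset.single_le_sum (fun _ _ => Nat.zero_le _) (Finset.mem_univ x)
        have a1 : s ((x : ℕ) + n) ≤ s (n + (N + ∑ x, K x)) := hmono (by have := x.2; omega)
        have a2 : s (m + K x) ≤ s (m + (N + ∑ x, K x)) := hmono (by omega)
        have a3 : ‖((g (Pi.single x 1) : W) : ℕ → ℂ) m‖ ≤ B x * s (m + (N + ∑ x, K x)) :=
          (hBK x m).trans (mul_le_mul_of_nonneg_left a2 (hB x))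
        calc s ((x : ℕ) + n) * ‖((g (Pi.single x 1) : W) : ℕ → ℂ) m‖
            ≤ s (n + (N + ∑ x, K x)) * (B x * s (m + (N + ∑ x, K x))) :=
              mul_le_mul a1 a3 (norm_nonneg _) (hnn _)
          _ = _ := by ring
    _ = (∑ x, B x) * s (m + (N + ∑ x, K x)) * s (n + (N + ∑ x, K x)) := by
        rw [Finset.sum_mul, Finset.sum_mul]

theorem ratio_bound (s : ℕ → ℝ) (hmono : Monotone s) (hnn : ∀ n, 0 ≤ s n)
    (d M : ℕ) (c : ℕ → ℂ)
    (hrec : ∀ n, M ≤ n → (s n : ℂ) = ∑ i ∈ range d, c i * (s (n - 1 - i) : ℂ)) :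
    ∃ B : ℝ, 1 ≤ B ∧ ∀ n, M ≤ n → ∀ j, s (n + j) ≤ B ^ j * s n := by
  refine ⟨1 + ∑ i ∈ range d, ‖c i‖,
    le_add_of_nonneg_right (Finset.sum_nonneg (fun _ _ => norm_nonneg _)), ?_⟩
  intro n hn j
  induction j with
  | zero => simp
  | succ j ih =>
    have h1 : s (n + (j + 1)) ≤ (1 + ∑ i ∈ range d, ‖c i‖) * s (n + j) := by
      have h2 : s (n + (j + 1)) = ‖(s (n + (j + 1)) : ℂ)‖ := by
        rw [Complex.norm_real, Real.norm_of_nonneg (hnn _)]
      have h3 : s (n + (j + 1)) ≤ (∑ i ∈ range d, ‖c i‖) * s (n + j) := by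
        rw [h2, hrec _ (by omega), Finset.sum_mul]
        refine (norm_sum_le _ _).trans ?_
        apply Finset.sum_le_sum
        intro i _
        rw [norm_mul, Complex.norm_real, Real.norm_of_nonneg (hnn _)]
        exact mul_le_mul_of_nonneg_left (hmono (by omega)) (norm_nonneg _)
      have := hnn (n + j)
      nlinarith
    have hBnn : (0 : ℝ) ≤ 1 + ∑ i ∈ range d, ‖c i‖ := by
      have : 0 ≤ ∑ i ∈ range d, ‖c i‖ := Finset.sum_nonneg (fun _ _ => norm_nonneg _)
      linarith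
    calc s (n + (j + 1)) ≤ (1 + ∑ i ∈ range d, ‖c i‖) * s (n + j) := h1
      _ ≤ (1 + ∑ i ∈ range d, ‖c i‖) * ((1 + ∑ i ∈ range d, ‖c i‖) ^ j * s n) :=
          mul_le_mul_of_nonneg_left ih hBnn
      _ = _ := by ring

/-- If `s` is nonnegative, monotone, not zero and `s (2 n + k) / s n ^ 2 → ∞`, then the power
series with coefficients `s` is not rational. -/
theorem not_rational_of_growth (s : ℕ → ℝ) (hmono : Monotone s) (hnn : ∀ n, 0 ≤ s n)
    (hpos : ∃ n, 0 < s n) (k : ℕ)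
    (hgrow : ∀ A : ℝ, ∃ n0, ∀ n, n0 ≤ n → A * s n ^ 2 ≤ s (2 * n + k)) :
    ¬ ∃ P Q : Polynomial ℂ, Q ≠ 0 ∧
      (Q : PowerSeries ℂ) * PowerSeries.mk (fun n => (s n : ℂ)) = (P : PowerSeries ℂ) := by
  rintro ⟨P, Q, hQ, h⟩
  obtain ⟨d, M, c, hd, hrec⟩ := exists_recurrence _ P Q hQ h
  obtain ⟨C, K, hC, hCK⟩ := hankel_bound s hmono hnn d M c hd hrec
  obtain ⟨B, hB, hBr⟩ := ratio_bound s hmono hnn d M c hrec
  obtain ⟨n1, hn1⟩ := hpos
  obtain ⟨n0, hn0⟩ := hgrow (B ^ (2 * K + k) * C + 1)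
  set n := M + n0 + n1 with hn
  have h1 := hn0 (n + K) (by omega)
  have h2 := hBr (2 * n) (by omega) (2 * K + k)
  have h3 := hCK n n
  have h4 : 0 < s (n + K) := lt_of_lt_of_le hn1 (hmono (by omega))
  have e1 : 2 * (n + K) + k = 2 * n + (2 * K + k) := by ring
  rw [e1] at h1
  have e2 : n + n = 2 * n := by ring
  rw [e2] at h3
  have hBp : 0 < B ^ (2 * K + k) := by positivity
  have h5 : B ^ (2 * K + k) * s (2 * n) ≤ B ^ (2 * K + k) * (C * s (n + K) * s (n + K)) :=
    mul_le_mul_of_nonneg_left h3 hBp.le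
  have h6 : 0 < s (n + K) ^ 2 := by positivity
  nlinarith

end Helper624Poly
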