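import Pool.Agent.Helper624_poly.Defs

/-!
The sliding construction: `√n * t n ^ 2 ≤ t (2 n + 1)`.
-/

namespace Helper624Poly

open Finset

theorem adj_iff {a b : Cell} : Adj a b ↔
    (a.1 = b.1 ∧ (a.2 = b.2 + 1 ∨ b.2 = a.2 + 1)) ∨
      (a.2 = b.2 ∧ (a.1 = b.1 + 1 ∨ b.1 = a.1 + 1)) := by
  unfold Adj
  rcases abs_cases (a.1 - b.1) with h1 | h1 <;> rcases abs_cases (a.2 - b.2) with h2 | h2 <;> omega

theorem adj_comm {a b : Cell} : Adj a b ↔ Adj b a := by
  rw [adj_iff, adj_iff]
  omega

theorem adj_add {a b : Cell} (v : Cell) : Adj (a + v) (b + v) ↔ Adj a b := by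
  simp [Adj]

theorem adj_up (a : Cell) : Adj a (a + (0, 1)) := by
  rw [adj_iff]
  simp

/-- The relation used in `Conn`. -/
def Rel (A : Finset Cell) (x y : Cell) : Prop := x ∈ A ∧ y ∈ A ∧ Adj x y

theorem rel_symm {A : Finset Cell} {x y : Cell} (h : Rel A x y) : Rel A y x :=
  ⟨h.2.1, h.1, adj_comm.mp h.2.2⟩

theorem rel_mono {A B : Finset Cell} (h : A ⊆ B) {x y : Cell}
    (h2 : Relation.ReflTransGen (Rel A) x y) : Relation.ReflTransGen (Rel B) x y := by
  induction h2 with
  | refl => exact Relation.ReflTransGen.refl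
  | tail _ h3 ih => exact ih.tail ⟨h h3.1, h h3.2.1, h3.2.2⟩

theorem rel_rev {A : Finset Cell} {x y : Cell}
    (h2 : Relation.ReflTransGen (Rel A) x y) : Relation.ReflTransGen (Rel A) y x := by
  induction h2 with
  | refl => exact Relation.ReflTransGen.refl
  | tail _ h3 ih => exact Relation.ReflTransGen.head (rel_symm h3) ih

theorem conn_union {A B : Finset Cell} (hA : Conn A) (hB : Conn B) {c : Cell} (h1 : c ∈ A)
    (h2 : c ∈ B) : Conn (A ∪ B) := by
  have key : ∀ x ∈ A ∪ B, Relation.ReflTransGen (Rel (A ∪ B)) x c := by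
    intro x hx
    rcases Finset.mem_union.mp hx with h | h
    · exact rel_mono Finset.subset_union_left (hA x h c h1)
    · exact rel_mono Finset.subset_union_right (hB x h c h2)
  intro x hx y hy
  exact (key x hx).trans (rel_rev (key y hy))

theorem conn_insert {A : Finset Cell} (hA : Conn A) {a c : Cell} (h1 : a ∈ A) (h2 : Adj a c) :
    Conn (insert c A) := by
  have hpair : Conn {a, c} := by
    intro x hx y hy
    have hac : Rel {a, c} a c := ⟨by simp, by simp, h2⟩
    rw [Finset.mem_insert, Finset.mem_singleton] at hx hy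
    rcases hx with rfl | rfl <;> rcases hy with rfl | rfl
    · exact Relation.ReflTransGen.refl
    · exact Relation.ReflTransGen.single hac
    · exact Relation.ReflTransGen.single (rel_symm hac)
    · exact Relation.ReflTransGen.refl
  have := conn_union hA hpair h1 (by simp : a ∈ ({a, c} : Finset Cell))
  have e : A ∪ {a, c} = insert c A := by
    ext x
    simp only [Finset.mem_union, Finset.mem_insert, Finset.mem_singleton]
    constructor
    · rintro (h | rfl | rfl)
      · exact Or.inr h
      · exact Or.inr h1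
      · exact Or.inl rfl
    · rintro (rfl | h)
      · exact Or.inr (Or.inr rfl)
      · exact Or.inl h
  rw [e] at this
  exact this

/-- Two sets of cells are separated when they are disjoint and no cell of one is adjacent to a
cell of the other. -/
def Sep (A B : Finset Cell) : Prop := ∀ a ∈ A, ∀ b ∈ B, a ≠ b ∧ ¬ Adj a b

theorem sep_symm {A B : Finset Cell} (h : Sep A B) : Sep B A := by
  intro b hb a ha
  exact ⟨(h a ha b hb).1.symm, fun h' => (h a ha b hb).2 (adj_comm.mp h')⟩

theorem conn_subset {A B C : Finset Cell} (hC : Conn C) (hsub : C ⊆ A ∪ B) (hs : Sep A B)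
    {x : Cell} (hx : x ∈ C) (hxA : x ∈ A) : C ⊆ A := by
  intro y hy
  have h := hC x hx y hy
  induction h with
  | refl => exact hxA
  | tail h1 h2 ih =>
    rename_i z w
    have hz := ih h2.1
    rcases Finset.mem_union.mp (hsub h2.2.1) with h | h
    · exact h
    · exact absurd h2.2.2 (hs z hz w h).2

/-- `R` splits as `A`, the cell `c`, and `B`. -/
structure Good (n : ℕ) (R A : Finset Cell) (c : Cell) (B : Finset Cell) : Prop where
  eq : R = insert c (A ∪ B)
  sep : Sep A B
  cA : c ∉ A
  cB : c ∉ B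
  connA : Conn A
  connB : Conn B
  cardA : A.card = n
  cardB : B.card = n
  adjA : ∃ a ∈ A, Adj a c
  adjB : c + (0, 1) ∈ B

theorem Good.unique {n : ℕ} {R A B A' B' : Finset Cell} {c c' : Cell} (h : Good n R A c B)
    (h' : Good n R A' c' B') : A = A' ∧ B = B' ∧ c = c' := by
  classical
  have hdis : Disjoint A' B' := by
    rw [Finset.disjoint_left]
    intro x hx hx'
    exact (h'.sep x hx x hx').1 rfl
  have hc : c = c' := by
    by_contra hne
    have hc'R : c' ∈ insert c (A ∪ B) := by
      rw [← h.eq, h'.eq]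
      exact Finset.mem_insert_self _ _
    have hsub : ∀ D : Finset Cell, D ⊆ R → c' ∉ D → D ⊆ A' ∪ B' := by
      intro D hD hcD x hx
      have := hD hx
      rw [h'.eq, Finset.mem_insert] at this
      rcases this with rfl | h1
      · exact absurd hx hcD
      · exact h1
    have hbig : ∀ D : Finset Cell, Conn D → D.card = n + 1 → D ⊆ A' ∪ B' → False := by
      intro D hD hcard hDs
      obtain ⟨x, hx⟩ : D.Nonempty := by
        rw [← Finset.card_pos]
        omega
      rcases Finset.mem_union.mp (hDs hx) with h1 | h1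
      · have := Finset.card_le_card (conn_subset hD hDs h'.sep hx h1)
        rw [h'.cardA] at this
        omega
      · have := Finset.card_le_card
          (conn_subset hD (by rwa [Finset.union_comm] at hDs) (sep_symm h'.sep) hx h1)
        rw [h'.cardB] at this
        omega
    rw [Finset.mem_insert] at hc'R
    rcases hc'R with h1 | h1
    · exact hne h1.symm
    · rcases Finset.mem_union.mp h1 with h2 | h2
      · -- c' ∈ A
        refine hbig (insert c B) (conn_insert h.connB h.adjB (adj_comm.mp (adj_up c))) ?_ ?_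
        · rw [Finset.card_insert_of_notMem h.cB, h.cardB]
        · apply hsub
          · rw [h.eq]
            exact Finset.insert_subset_insert _ Finset.subset_union_right
          · rw [Finset.mem_insert]
            rintro (h3 | h3)
            · exact hne h3.symm
            · exact (h.sep c' h2 c' h3).1 rfl
      · -- c' ∈ B
        obtain ⟨a, ha, hac⟩ := h.adjA
        refine hbig (insert c A) (conn_insert h.connA ha hac) ?_ ?_
        · rw [Finset.card_insert_of_notMem h.cA, h.cardA]
        · apply hsub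
          · rw [h.eq]
            exact Finset.insert_subset_insert _ Finset.subset_union_left
          · rw [Finset.mem_insert]
            rintro (h3 | h3)
            · exact hne h3.symm
            · exact (h.sep c' h3 c' h2).1 rfl
  subst hc
  have hAB : A ∪ B = A' ∪ B' := by
    have e1 : (insert c (A ∪ B)).erase c = A ∪ B := by
      apply Finset.erase_insert
      rw [Finset.mem_union]
      rintro (h1 | h1)
      · exact h.cA h1
      · exact h.cB h1
    have e2 : (insert c (A' ∪ B')).erase c = A' ∪ B' := by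
      apply Finset.erase_insert
      rw [Finset.mem_union]
      rintro (h1 | h1)
      · exact h'.cA h1
      · exact h'.cB h1
    rw [← e1, ← e2, ← h.eq, ← h'.eq]
  have hBB : B = B' := by
    apply Finset.eq_of_subset_of_card_le
    · refine conn_subset (B := A') h.connB ?_ (sep_symm h'.sep) h.adjB h'.adjB
      rw [Finset.union_comm, ← hAB]
      exact Finset.subset_union_right
    · rw [h.cardB, h'.cardB]
  refine ⟨?_, hBB, rfl⟩
  have hdis2 : Disjoint A B := by
    rw [Finset.disjoint_left]
    intro x hx hx'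
    exact (h.sep x hx x hx').1 rfl
  have e3 : (A ∪ B) \ B = A := by
    rw [Finset.union_sdiff_right]
    exact Finset.sdiff_eq_self_of_disjoint hdis2
  have e4 : (A' ∪ B') \ B' = A' := by
    rw [Finset.union_sdiff_right]
    exact Finset.sdiff_eq_self_of_disjoint hdis
  rw [← e3, ← e4, hAB, hBB]

/-! ### Translations -/

theorem mem_tr {v x : Cell} {A : Finset Cell} : x ∈ tr v A ↔ x - v ∈ A := by
  unfold tr
  rw [Finset.mem_image]
  constructor
  · rintro ⟨a, ha, rfl⟩
    simpa using ha
  · intro h
    exact ⟨x - v, h, by simp⟩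

theorem add_mem_tr {v x : Cell} {A : Finset Cell} : x + v ∈ tr v A ↔ x ∈ A := by
  rw [mem_tr]
  simp

theorem card_tr (v : Cell) (A : Finset Cell) : (tr v A).card = A.card :=
  Finset.card_image_of_injective _ (add_left_injective v)

theorem conn_tr {A : Finset Cell} (v : Cell) (hA : Conn A) : Conn (tr v A) := by
  intro x hx y hy
  unfold tr at hx hy
  rw [Finset.mem_image] at hx hy
  obtain ⟨a, ha, rfl⟩ := hx
  obtain ⟨b, hb, rfl⟩ := hy
  have h := hA a ha b hb
  clear hb
  induction h with
  | refl => exact Relation.ReflTransGen.refl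
  | tail _ h3 ih =>
    exact ih.tail ⟨add_mem_tr.mpr h3.1, add_mem_tr.mpr h3.2.1, (adj_add v).mpr h3.2.2⟩

theorem tr_nonempty {A : Finset Cell} (v : Cell) (hA : A.Nonempty) : (tr v A).Nonempty :=
  hA.image _

theorem tr_eq_self {A : Finset Cell} (hA : A.Nonempty) {v : Cell} (h : tr v A = A) : v = 0 := by
  have h1 : ∑ x ∈ tr v A, x = ∑ x ∈ A, (x + v) := by
    unfold tr
    exact Finset.sum_image (fun x _ y _ hxy => add_left_injective v hxy)
  rw [h, Finset.sum_add_distrib, Finset.sum_const] at h1
  have h2 : A.card • v = 0 := by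
    have := h1.symm
    simpa using this
  have h3 : A.card ≠ 0 := Finset.card_ne_zero.mpr hA
  ext
  · have := congrArg Prod.fst h2
    simp at this
    rcases this with h4 | h4
    · rw [h4] at hA
      simp at hA
    · simpa using h4
  · have := congrArg Prod.snd h2
    simp at this
    rcases this with h4 | h4
    · rw [h4] at hA
      simp at hA
    · simpa using h4

theorem tr_inj {A : Finset Cell} (hA : A.Nonempty) {v w : Cell} (h : tr v A = tr w A) :
    v = w := by
  have h1 : tr (v + -w) A = A := by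
    rw [← tr_tr, h, tr_tr, add_neg_cancel, tr_zero]
  have := tr_eq_self hA h1
  rwa [← sub_eq_add_neg, sub_eq_zero] at this

theorem tr_cancel {A B : Finset Cell} {v : Cell} (h : tr v A = tr v B) : A = B := by
  have := congrArg (tr (-v)) h
  rwa [tr_tr, tr_tr, add_neg_cancel, tr_zero, tr_zero] at this

theorem Good.tr {n : ℕ} {R A B : Finset Cell} {c : Cell} (h : Good n R A c B) (v : Cell) :
    Good n (tr v R) (tr v A) (c + v) (tr v B) where
  eq := by
    rw [h.eq]
    unfold Helper624Poly.tr
    rw [Finset.image_insert, Finset.image_union]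
  sep := by
    intro a ha b hb
    rw [mem_tr] at ha hb
    have := h.sep _ ha _ hb
    refine ⟨fun e => this.1 (by rw [e]), fun hadj => this.2 ?_⟩
    rw [← adj_add v]
    simpa using hadj
  cA := by rw [add_mem_tr]; exact h.cA
  cB := by rw [add_mem_tr]; exact h.cB
  connA := conn_tr v h.connA
  connB := conn_tr v h.connB
  cardA := by rw [card_tr, h.cardA]
  cardB := by rw [card_tr, h.cardB]
  adjA := by
    obtain ⟨a, ha, hac⟩ := h.adjA
    exact ⟨a + v, add_mem_tr.mpr ha, (adj_add v).mpr hac⟩
  adjB := by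
    have : c + v + (0, 1) = c + (0, 1) + v := by ring
    rw [this, add_mem_tr]
    exact h.adjB

/-! ### Sliding -/

theorem exists_slide (P Q : Finset Cell) (u : ℤ) (h : ∃ a ∈ P, ∃ b ∈ Q, a.1 = b.1 + u) :
    ∃ (v : ℤ) (c : Cell), Sep P (tr (u, v) Q) ∧ c ∉ P ∧ c ∉ tr (u, v) Q ∧ (∃ a ∈ P, Adj a c) ∧
      c + (0, 1) ∈ tr (u, v) Q := by
  classical
  obtain ⟨a0, ha0, b0, hb0, hab⟩ := h
  obtain ⟨m, hm⟩ : ∃ m : ℤ, ∀ a ∈ P, a.2 ≤ m := by
    obtain ⟨x, _, hx⟩ := P.exists_max_image Prod.snd ⟨a0, ha0⟩
    exact ⟨x.2, hx⟩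
  obtain ⟨k, hk⟩ : ∃ k : ℤ, ∀ b ∈ Q, k ≤ b.2 := by
    obtain ⟨x, _, hx⟩ := Q.exists_min_image Prod.snd ⟨b0, hb0⟩
    exact ⟨x.2, hx⟩
  have hbdd : ∃ b : ℤ, ∀ z : ℤ, ¬ Sep P (tr (u, z) Q) → z ≤ b := by
    refine ⟨m - k + 1, fun z hz => ?_⟩
    unfold Sep at hz
    push Not at hz
    obtain ⟨a, ha, b, hb, hh⟩ := hz
    rw [mem_tr] at hb
    have h1 := hm a ha
    have h2 := hk _ hb
    simp only [Prod.snd_sub] at h2
    by_cases e : a = b
    · rw [e] at h1
      omega
    · have := adj_iff.mp (hh e)
      omega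
  have hne : ∃ z : ℤ, ¬ Sep P (tr (u, z) Q) := by
    refine ⟨a0.2 - b0.2, fun hs => ?_⟩
    have h1 : a0 ∈ tr (u, a0.2 - b0.2) Q := by
      rw [mem_tr]
      have : a0 - (u, a0.2 - b0.2) = b0 := by
        ext
        · simp; omega
        · simp
      rw [this]
      exact hb0
    exact (hs a0 ha0 a0 h1).1 rfl
  obtain ⟨v1, hv1, hmax⟩ := Int.exists_greatest_of_bdd hbdd hne
  have hsep : Sep P (tr (u, v1 + 1) Q) := by
    by_contra hcon
    have := hmax _ hcon
    omega
  unfold Sep at hv1
  push Not at hv1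
  obtain ⟨a, ha, c, hc, hh⟩ := hv1
  have hup : c + (0, 1) ∈ tr (u, v1 + 1) Q := by
    rw [mem_tr] at hc ⊢
    have : c + (0, 1) - (u, v1 + 1) = c - (u, v1) := by
      ext
      · simp
      · simp only [Prod.snd_sub, Prod.snd_add]
        ring
    rw [this]
    exact hc
  have hcP : c ∉ P := fun hcP => (hsep c hcP _ hup).2 (adj_up c)
  have hac : Adj a c := hh (fun e => hcP (e ▸ ha))
  refine ⟨v1 + 1, c, hsep, hcP, ?_, ⟨a, ha, hac⟩, hup⟩
  intro hcQ
  exact (hsep a ha c hcQ).2 hac

end Helper624Poly
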